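import Pool.Agent.Helper99.LZ.Goals
import Pool.Agent.Helper52.C2.Ker

/-!
# Product theorem for HH1 : from contexts to the families of `Helper52/C2/Defs.lean`

FINAL GOAL: `Pool.Agent.Helper52.C2.GoalMT1'`.
-/

set_option autoImplicit false

open Finset Filter Topology

namespace Pool.Agent.Helper99.LZ

open Pool.Agent.Helper52 (C2.Tg C2.Fam C2.Dir)
open Pool.Agent.Helper52.C2 (Tg Fam Dir pre quad pwin1)

/-- the bilinear form of a matrix -/
noncomputable def bil {ι : Type} [Fintype ι] (M : ι → ι → ℝ) :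
    (ι → ℝ) →ₗ[ℝ] (ι → ℝ) →ₗ[ℝ] ℝ :=
  LinearMap.mk₂ ℝ (fun u v => ∑ a, ∑ b, u a * M a b * v b)
    (by intro u u' v; simp [add_mul, Finset.sum_add_distrib])
    (by intro c u v; simp [Finset.mul_sum, mul_assoc])
    (by intro u v v'; simp [mul_add, Finset.sum_add_distrib])
    (by intro c u v; simp [Finset.mul_sum]; refine Finset.sum_congr rfl fun a _ =>
          Finset.sum_congr rfl fun b _ => by ring)

/-- PACKET OPE: the two definitions of one-positivity.  (→) a positive definite plane contains a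
nonzero vector with `∑ l a * v a = 0`; (←) `l a = ∑ b, u b * M b a` for a `u` with `bil M u u > 0`. -/
def StmtOPE : Prop := ∀ (ι : Type) [Fintype ι] (ok : ι → Prop) (M : ι → ι → ℝ),
  (∀ a b, M a b = M b a) → (Pool.Agent.Helper52.C2.OnePos ok M ↔
    ∀ u v : ι → ℝ, (∀ a, ¬ ok a → u a = 0) → (∀ a, ¬ ok a → v a = 0) → 0 < bil M u u →
      bil M u u * bil M v v ≤ (bil M u v) ^ 2)

/-- the pair of a tangle -/
noncomputable def toPr (B : Tg) : Pr := ⟨pre B.L, pre B.R⟩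

section fam
variable {E : Type} [Fintype E] [DecidableEq E] (A : Fam E)

/-- entries of the window at `(p, q)` in the directions `X, Y` and the parameters -/
noncomputable def famEntry (p q : ℤ) : Dir E → Dir E → ℝ
  | .X, .X => A.S.h (p - q + 2) (p + 2)
  | .X, .Y => A.S.h (p - q + 2) (p + 1)
  | .Y, .X => A.S.h (p - q + 2) (p + 1)
  | .Y, .Y => A.S.h (p - q + 2) p
  | .X, .V e => (A.Se e).h (p - q + 2) (p + 1)
  | .V e, .X => (A.Se e).h (p - q + 2) (p + 1)
  | .Y, .V e => (A.Se e).h (p - q + 2) p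
  | .V e, .Y => (A.Se e).h (p - q + 2) p
  | .V e, .V e' => A.G e e' (p - q + 2).toNat p

/-- coefficients of the functional `P p` -/
noncomputable def cP (p : ℤ) : Dir E → ℝ
  | .X => pre A.S.L (p + 1)
  | .Y => pre A.S.L p
  | .V e => pre (A.Se e).L p

/-- coefficients of the functional `Q q` -/
noncomputable def cQ (q : ℤ) : Dir E → ℝ
  | .X => pre A.S.R q
  | .Y => pre A.S.R (q - 1)
  | .V e => pre (A.Se e).R (q - 1)

/-- the context of a family -/
noncomputable def famCtx : Ctx (Dir E → ℝ) where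
  X := Pi.single .X 1
  Y := Pi.single .Y 1
  P := fun p => ∑ a, cP A p a • LinearMap.proj a
  Q := fun q => ∑ a, cQ A q a • LinearMap.proj a
  D := fun p q => bil (famEntry A p q)
  G := fun q => max (A.S.h (-1) (q - 1)) 0

end fam

/-- the family without parameters -/
noncomputable def famE (B : Tg) : Fam Empty := ⟨B, fun e => e.elim, fun e => e.elim⟩

/-- PACKET BR1 -/
def StmtBRE : Prop := ∀ B : Tg, B.HH1 → (famE B).Good

/-- PACKET BR1, structural relations of the context of a good family (natural entries: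
`h (p-q+2) i = pre L i - pre R (i - (p-q+2))`), and the entries of the full form are those of
`Fam.win`. -/
def StmtBRR : Prop := ∀ (E : Type) [Fintype E] [DecidableEq E] (A : Fam E), A.Good →
  (famCtx A).Rel

/-- PACKET BR2: levels. From OPE: the form `(famCtx A).full p q` is `bil (A.win n p)`,
`n = p - q + 2 ≥ 1`, under `(v, w) ↦ (X ↦ v X, Y ↦ v Y, V none ↦ w, V (some e) ↦ v (V e))`. -/
def StmtBRL : Prop := ∀ (E : Type) [Fintype E] [DecidableEq E] (A : Fam E), A.Good →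
  (∀ q, OnePos ((famCtx A).D (q - 2) q)) ∧
  (∀ p q, q - 1 ≤ p → OnePos ((famCtx A).full p q))

/-- PACKET BR3: supports.  Let `F ≠ 0` (`F = toPr.F`), `a` the minimum of its support, `b > a` the
first zero after `a`.  The window at `(b-1, b)` has `WW = 0`, `XW = F b = 0`, `YW = F (b-1) > 0`, so
(OP2) `XX = H (b+1) b ≤ 0`, i.e. `F (b+1) = R (b+1) = L (b+1) = 0`; `H (p+2) q H p q ≤ H (p+1) q ^2`
for `q ≪ 0` gives `P p (L (p+2) - L (p+1)) ≤ L (p+1)^2`, so `L k = 0` for `k > b`; then `F` is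
nonincreasing from `b` on, so `F k = 0 = R k` for `k > b`.  In the same way the window at
`(a-1, a)`: `WW = 0`, `YW = F (a-1) = 0`, `XW = F a > 0`, so `YY = H (a-1) (a-2) = 0`,
`R (a-1) = L (a-1) = 0`, `R k = 0` for `k < a`, `L k = 0` for `k < a`. -/
def StmtBRG : Prop := ∀ (E : Type) [Fintype E] [DecidableEq E] (A : Fam E), A.Good →
  A.S.F ≠ 0 → ∃ a b : ℤ, (famCtx A).pr.Reg a b

/-- PACKET BR4: zero rules from domination: if `XX = XY = YY = 0` all entries of the full form are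
`0` (`dom`, `domG`; `h (n-1) i ≤ h n i`, `h n (i+1)`; `h (-1) i ≤ h 0 (i+1)`). -/
def StmtBRD : Prop := ∀ (E : Type) [Fintype E] [DecidableEq E] (A : Fam E), A.Good →
  (∀ q, (famCtx A).pr.F (q - 1) = 0 → (famCtx A).pr.F (q - 2) = 0 →
    ∀ u v, (famCtx A).D (q - 2) q u v = (famCtx A).pr.F q * u .X * v .X) ∧
  (∀ p q, q - 1 ≤ p → (famCtx A).pr.H (p + 1) (q - 1) = 0 → (famCtx A).pr.H p (q - 2) = 0 →
    ∀ u v, (famCtx A).full p q u v = (famCtx A).pr.H (p + 2) q * u.1 .X * v.1 .X)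

/-- PACKET BR5: assembly of the two classes (scalar case: `L = R`, no gaps as in BR3, all entries of
`D (q-2) q` are `0` by domination). -/
def StmtBRF : Prop := ∀ (E : Type) [Fintype E] [DecidableEq E] (A : Fam E), A.Good →
  (A.S.F ≠ 0 → ∃ a b, (famCtx A).HH a b) ∧
  (A.S.F = 0 → A.S.L ≠ 0 → ∃ a b, (famCtx A).HS a b (LinearMap.proj .X)) ∧
  (A.S.F = 0 → A.S.L = 0 → ∀ p q, q - 2 ≤ p → (famCtx A).D p q = 0)

/-- PACKET CP: the underlying pair of a context is in HH1 (restrict the forms to `X, Y, W` and lower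
the entry `WW` at level `-1` from `G q` to `hp q`: if `B` is OnePos, `B' = B - c w w'`, `c ≥ 0`,
`B' u u > 0`, `v' = v - (B' u v / B' u u) u`, `B' v' v' > 0`, then `B ≥ B' > 0` on the plane of `u`
and `v'`, but it contains a vector `w ≠ 0` with `B u w = 0`, `B w w ≤ 0`). -/
def StmtCP : Prop := ∀ (V : Type) [AddCommGroup V] [Module ℝ V] (S : Ctx V) (a b : ℤ),
  S.HH a b → S.pr.HH1 a b

/-- PACKET CC: couplings. The Finsupp coupling of `Helper52.C2` from `m`; `pwin1` is `prod` at the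
place `i + 2` (`GoalCoefMul` for the natural entries). -/
def StmtCC : Prop := Pool.Agent.Helper52.C2.GoalCoefMul → ∀ (B : Tg) (a b : ℤ) (m : ℤ → ℤ → ℝ),
  (∀ i i', 0 ≤ m i i') → (∀ i i', m i i' ≠ 0 → a ≤ i ∧ i ≤ i' ∧ i' ≤ b) →
  (∀ i, ∑ i' ∈ Icc a b, m i i' = (toPr B).L i) → (∀ i', ∑ i ∈ Icc a b, m i i' = (toPr B).R i') →
  ∃ r : Pool.Agent.Helper52.C2.Cpl B, ∀ (E : Type) [Fintype E] [DecidableEq E] (A : Fam E)
    (i : ℤ), bil (pwin1 A B r i) = (famCtx A).prod m a b (i + 2)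

/-- PACKET SCB: scalar `T` (`T = S₀.pr`).  Apply MASTER, MASTER0 to `S` and the pair of `S₀.zst δ`
(in HH1 by ZST, CP) with its coupling `m_δ` (CPL): `al k = L k`, `m_δ (k-1) k = δ L (k-1)`, all
other masses are `0` (row sums `(1 + δ) L k`); `δ → 0`. -/
def StmtSCB : Prop := ∀ (V V₀ : Type) [AddCommGroup V] [Module ℝ V] [AddCommGroup V₀]
  [Module ℝ V₀] (S : Ctx V) (S₀ : Ctx V₀) (a b a₂ b₂ n : ℤ) (x : V →ₗ[ℝ] ℝ) (x₀ : V₀ →ₗ[ℝ] ℝ),
  S₀.HS a b x₀ → (S.HH a₂ b₂ ∨ S.HS a₂ b₂ x) →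
  OnePos (∑ k ∈ Icc a b, S₀.pr.L k • S.D (n - 2 - k) (n - k))

/-- PACKET FIN: assembly.  `B.F ≠ 0`: `(famCtx (famE B)).HH a b` (BRE, BRF), `pr = toPr B`, CP, CPL,
CC, MASTER, MASTER0, OPE.  `B.F = 0`, `B.L ≠ 0`: HS, the coupling `m k k = L k`, CC, SCB.
`B.L = 0`: `pwin1 = 0`. -/
def StmtFIN : Prop := StmtMASTER → StmtMASTER0 → StmtCPL → StmtOPE → StmtBRE → StmtBRF → StmtCP →
  StmtCC → StmtSCB → Pool.Agent.Helper52.C2.GoalCoefMul → Pool.Agent.Helper52.C2.GoalMT1'

end Pool.Agent.Helper99.LZ
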