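import Mathlib

/-!
# Product theorem for the class HH1 : definitions

A tangle is a pair of nonnegative finitely supported sequences `L, R` on `ℤ` of the same total mass,
given by its cumulative functions `P, Q`; `H p q = P p - Q q`, `F k = H k k`, `h k = H (k-1) k`.
A *context* is a tangle together with a vector space `V` of directions (`X`, `Y` and parameters).
-/

set_option autoImplicit false

open Finset

namespace Pool.Agent.Helper99.LZ

/-- at most one positive direction (for symmetric `B`) -/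
def OnePos {V : Type*} [AddCommGroup V] [Module ℝ V] (B : V →ₗ[ℝ] V →ₗ[ℝ] ℝ) : Prop :=
  ∀ u v, 0 < B u u → B u u * B v v ≤ (B u v) ^ 2

/-- symmetric -/
def Sym {V : Type*} [AddCommGroup V] [Module ℝ V] (B : V →ₗ[ℝ] V →ₗ[ℝ] ℝ) : Prop :=
  ∀ u v, B u v = B v u

/-- a pair of sequences, given by the cumulative functions -/
structure Pr where
  /-- cumulative function of `L` -/
  P : ℤ → ℝ
  /-- cumulative function of `R` -/
  Q : ℤ → ℝ

namespace Pr
variable (T : Pr)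
/-- `H p q` -/
def H (p q : ℤ) : ℝ := T.P p - T.Q q
/-- left mass -/
def L (k : ℤ) : ℝ := T.P k - T.P (k - 1)
/-- right mass -/
def R (k : ℤ) : ℝ := T.Q k - T.Q (k - 1)
/-- `F k` -/
def F (k : ℤ) : ℝ := T.H k k
/-- `h k = H (k-1) k` -/
def h (k : ℤ) : ℝ := T.H (k - 1) k
/-- positive part of `h` -/
noncomputable def hp (k : ℤ) : ℝ := max 0 (T.h k)
/-- mass of the instant at `k` -/
noncomputable def al (k : ℤ) : ℝ := max 0 (-T.h k)

/-- the window form on `X, Y, W` at the base `(p, q)`, with entry `g` at `(W, W)` -/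
def W3 (p q : ℤ) (g : ℝ) (x y w x' y' w' : ℝ) : ℝ :=
  x * x' * T.H (p + 2) q + (x * y' + y * x') * T.H (p + 1) (q - 1) + y * y' * T.H p (q - 2)
    + (x * w' + w * x') * T.H (p + 1) q + (y * w' + w * y') * T.H p (q - 1) + w * w' * g

/-- the window has at most one positive direction -/
def OP3 (p q : ℤ) (g : ℝ) : Prop := ∀ x y w x' y' w' : ℝ,
  0 < T.W3 p q g x y w x y w →
    T.W3 p q g x y w x y w * T.W3 p q g x' y' w' x' y' w' ≤ (T.W3 p q g x y w x' y' w') ^ 2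

/-- regular pair with support `[a, b]` -/
structure Reg (a b : ℤ) : Prop where
  L0 : ∀ k, 0 ≤ T.L k
  R0 : ∀ k, 0 ≤ T.R k
  lo : ∀ k < a, T.P k = 0 ∧ T.Q k = 0
  hi : ∀ k ≥ b, T.P k = T.P b ∧ T.Q k = T.P b
  ab : a < b
  Fpos : ∀ k, a ≤ k → k < b → 0 < T.F k

/-- the class HH1 -/
structure HH1 (a b : ℤ) : Prop extends T.Reg a b where
  lc : ∀ k, T.F k * T.F (k - 2) ≤ T.F (k - 1) ^ 2
  one : ∀ q, T.OP3 (q - 1) q (T.hp q)
  nat : ∀ p q, q ≤ p → T.OP3 p q (T.H p q)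

/-- the sequences `L` and `R` have no internal zeros -/
def NoGap : Prop :=
  (∀ k, T.L k = 0 → (∀ i < k, T.L i = 0) ∨ (∀ i > k, T.L i = 0)) ∧
  (∀ k, T.R k = 0 → (∀ i < k, T.R i = 0) ∨ (∀ i > k, T.R i = 0))
end Pr

/-- a coupling of `L` and `R` by pieces `(i, i')`, `i ≤ i'`, of mass `m i i'`: the mass of the
instants is minimal and the mass of the pieces `(i-1, i)` is maximal. -/
structure Cpl (T : Pr) (a b : ℤ) (m : ℤ → ℤ → ℝ) : Prop where
  nn : ∀ i i', 0 ≤ m i i'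
  supp : ∀ i i', m i i' ≠ 0 → a ≤ i ∧ i ≤ i' ∧ i' ≤ b
  row : ∀ i, ∑ i' ∈ Icc a b, m i i' = T.L i
  col : ∀ i', ∑ i ∈ Icc a b, m i i' = T.R i'
  inst : ∀ i, m i i = T.al i
  one : ∀ i, m (i - 1) i = T.F (i - 1) - max (T.hp (i - 1)) (T.hp i)

/-- a context: `X`, `Y` and functionals and forms on a space `V` -/
structure Ctx (V : Type*) [AddCommGroup V] [Module ℝ V] where
  X : V
  Y : V
  P : ℤ → V →ₗ[ℝ] ℝ
  Q : ℤ → V →ₗ[ℝ] ℝ
  D : ℤ → ℤ → V →ₗ[ℝ] V →ₗ[ℝ] ℝ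
  G : ℤ → ℝ

namespace Ctx
variable {V : Type*} [AddCommGroup V] [Module ℝ V] (S : Ctx V)

/-- the underlying pair -/
def pr : Pr := ⟨fun p => S.P p S.Y, fun q => S.Q q S.X⟩

/-- the entry `(W, W)` at the base `(p, q)` -/
def g (p q : ℤ) : ℝ := if q ≤ p then S.pr.H p q else S.G q

/-- the form on `V × ℝ` (the last coordinate is the direction `W`) at the base `(p, q)` -/
noncomputable def full (p q : ℤ) : (V × ℝ) →ₗ[ℝ] (V × ℝ) →ₗ[ℝ] ℝ :=
  LinearMap.mk₂ ℝ (fun u v => S.D p q u.1 v.1 + u.2 * (S.P p v.1 - S.Q q v.1)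
      + v.2 * (S.P p u.1 - S.Q q u.1) + u.2 * v.2 * S.g p q)
    (by intro u u' v; simp; ring) (by intro c u v; simp; ring)
    (by intro u v v'; simp; ring) (by intro c u v; simp; ring)

/-- structural relations of a context -/
structure Rel : Prop where
  sym : ∀ p q, Sym (S.D p q)
  DX : ∀ p q v, S.D p q S.X v = S.P (p + 1) v - S.Q q v
  DY : ∀ p q v, S.D p q S.Y v = S.P p v - S.Q (q - 1) v
  PX : ∀ p, S.P p S.X = S.P (p + 1) S.Y
  QY : ∀ q, S.Q q S.Y = S.Q (q - 1) S.X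
  Gnn : ∀ q, 0 ≤ S.G q
  Gh : ∀ q, S.pr.h q ≤ S.G q

/-- the class HH1 with parameters -/
structure HH (a b : ℤ) : Prop extends S.Rel where
  reg : S.pr.Reg a b
  lev2 : ∀ q, OnePos (S.D (q - 2) q)
  lev : ∀ p q, q - 1 ≤ p → OnePos (S.full p q)
  zer2 : ∀ q, S.pr.F q = 0 → S.pr.F (q - 1) = 0 → S.pr.F (q - 2) = 0 → S.D (q - 2) q = 0
  zer : ∀ p q, q - 1 ≤ p → S.pr.H (p + 2) q = 0 → S.pr.H (p + 1) (q - 1) = 0 →
    S.pr.H p (q - 2) = 0 → S.full p q = 0

end Ctx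

end Pool.Agent.Helper99.LZ
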