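import Pool.Agent.Helper99.LZ.Quad

/-!
# Product theorem for HH1 : statements on contexts

Order: OP1-3, FAM0, FAM -> STEP, RAD -> PERT, CONT;  CPL, PAR, DEC, KAP, R1-R4 (`Quad.lean`) ->
QUAD;  ID, QC, IDX, QUAD, PAR, OP1, OP3 -> CORE;  CORE, PERT, CONT, NOGAP -> MASTER;  ZST, MASTER
-> MASTER0.
-/

set_option autoImplicit false

open Finset Filter Topology

namespace Pool.Agent.Helper99.LZ

/-- OP1.  For `u` with `B u u > 0`: let `t = B u v / B u u`, `v' = v - t u`, `B u v' = 0`; want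
`B v' v' ≤ 0`.  If `B v' v' > 0`, all `α u + β v' ≠ 0` have `B > 0`; some of them,
`w = B x v' • u - B x u • v'` (or `u`, `v'` if both numbers are `0`), is orthogonal to `x`, hence
`B x x * B w w ≤ 0`, contradiction. -/
def StmtOP1 : Prop := ∀ (V : Type) [AddCommGroup V] [Module ℝ V] (B : V →ₗ[ℝ] V →ₗ[ℝ] ℝ) (x : V),
  Sym B → 0 < B x x → (∀ v, B x x * B v v ≤ (B x v) ^ 2) → OnePos B

/-- OP2 (null vector).  Suppose `B y y > 0`.  `z' = z - (B y z / B y y) y`, `w = t x + z'`: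
`B y w = 0`, `B w w = 2 t B x z + B z' z'` (`B x z' = B x z`, `B x x = 0`), positive for suitable `t`;
OnePos for `y`, `w` gives `B y y * B w w ≤ 0`, contradiction. -/
def StmtOP2 : Prop := ∀ (V : Type) [AddCommGroup V] [Module ℝ V] (B : V →ₗ[ℝ] V →ₗ[ℝ] ℝ)
  (x y z : V), Sym B → OnePos B → B x x = 0 → B x z ≠ 0 → B x y = 0 → B y y ≤ 0

/-- OP3 (radical).  `z' = z - (B x z / B x x) x` is orthogonal to `x`, so
`B (s + t z') (s + t z') = 2 t B s z' + t^2 B z' z' ≤ 0` for all `t`, hence `B s z' = 0`. -/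
def StmtOP3 : Prop := ∀ (V : Type) [AddCommGroup V] [Module ℝ V] (B : V →ₗ[ℝ] V →ₗ[ℝ] ℝ)
  (x s : V), Sym B → OnePos B → 0 < B x x → B x s = 0 → B s s = 0 → ∀ z, B s z = 0

/-- FAM0: `B₀ y₀ = B₁ y₁ =: λ ≠ 0`, both diagonal entries `≥ 0`: both forms are `≤ 0` on
`ker λ` (OnePos if the entry is positive, OP2 if it is `0`), hence so is the sum, and a symmetric
form that is `≤ 0` on a hyperplane is OnePos (as in OP1). -/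
def StmtFAM0 : Prop := ∀ (V : Type) [AddCommGroup V] [Module ℝ V] (B₀ B₁ : V →ₗ[ℝ] V →ₗ[ℝ] ℝ)
  (y₀ y₁ z : V) (α β : ℝ), Sym B₀ → Sym B₁ → OnePos B₀ → OnePos B₁ → (∀ v, B₀ y₀ v = B₁ y₁ v) →
  B₀ y₀ z ≠ 0 → 0 ≤ B₀ y₀ y₀ → 0 ≤ B₁ y₁ y₁ → 0 ≤ α → 0 ≤ β →
  OnePos (α • B₀ + β • B₁) ∧ ∀ u, B₀ y₀ u = 0 → B₀ u u ≤ 0 ∧ B₁ u u ≤ 0

/-- FAM: adjacent forms, `B₀ Y = B₁ X =: λ`.  If `B₀ X Y = 0 = B₀ Y Y` then one of the forms
is `0` and everything is clear.  Otherwise `λ X = B₀ X Y = B₁ X X ≠ 0` or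
`λ Y = B₀ Y Y = B₁ X Y ≠ 0`: FAM0 with `y₀ = Y`, `y₁ = X`.  Radical: let `B' = α B₀ + β B₁`,
`B' u = 0`.  `λ u = 0`: otherwise `B' (v - (λ v / λ u) u) (..) = B' v v ≤ 0` for all `v`, but
`B' (X + Y) (X + Y) > 0`.  So `B₀ u u ≤ 0`, `B₁ u u ≤ 0`, `B' u u = 0`, both are `0`.  If
`B₀ Y Y > 0`: `B₀ u = 0` by OP3, hence `β B₁ u = 0`.  If `B₁ X X > 0`: `B₁ u = 0` by OP3. -/
def StmtFAM : Prop := ∀ (V : Type) [AddCommGroup V] [Module ℝ V] (B₀ B₁ : V →ₗ[ℝ] V →ₗ[ℝ] ℝ)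
  (X Y : V) (α β : ℝ), Sym B₀ → Sym B₁ → OnePos B₀ → OnePos B₁ → (∀ v, B₀ Y v = B₁ X v) →
  0 ≤ B₀ X X → 0 ≤ B₀ X Y → 0 ≤ B₀ Y Y → 0 ≤ B₁ Y Y →
  (B₀ X Y = 0 → B₀ Y Y = 0 → B₀ X X = 0 ∨ B₁ Y Y = 0) →
  (B₀ X X = 0 → B₀ X Y = 0 → B₀ Y Y = 0 → B₀ = 0) →
  (B₁ X X = 0 → B₁ X Y = 0 → B₁ Y Y = 0 → B₁ = 0) → 0 < α → 0 < β →
  OnePos (α • B₀ + β • B₁) ∧
    ∀ u, (∀ z, (α • B₀ + β • B₁) u z = 0) → (∀ z, B₀ u z = 0) ∧ (∀ z, B₁ u z = 0)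

/-- PACKET OP: the five statements above -/
def StmtOP : Prop := StmtOP1 ∧ StmtOP2 ∧ StmtOP3 ∧ StmtFAM0 ∧ StmtFAM

/-- PACKET IDX: the index argument.  `M₁₂ u v := ∑ w_c M_c (e u) (e v)`, `μ = ∑ w_c > 0`.  Linear map
`Λ : (C → ℝ) → (C → ℝ)`, `t = ∑ w_c z_c`, `ζ_c = z_c - t / μ`, `(Λ z)_c = M_c (e X) (-t • e X + s ζ c)`.
Injective: `Λ z = 0` gives `0 = ∑ w_c (Λ z)_c = -t M₁₂ X X`, so `t = 0`, `ζ = z`,
`M_c (e X) (s ζ c) = 0`, hence `M_c (s ζ c) (s ζ c) ≤ 0`, the sum is `≥ 0`, all are `0`, `z = 0`.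
So `Λ` is surjective (`LinearMap.injective_iff_surjective`): choose `z` with
`(Λ z)_c = - M_c (e X) (e v)`; `u_c = e v - t • e X + s ζ c` has `M_c (e X) u_c = 0`, so
`M_c u_c u_c ≤ 0` and `0 ≥ ∑ w_c M_c u_c u_c = M₁₂ (v - t X) (v - t X) + ∑ w_c M_c (s ζ c) (s ζ c)`
(cross terms vanish), so `M₁₂ (v - t X) (v - t X) ≤ 0`, and `M₁₂ X (v - t X) = 0` in the same way. -/
def StmtIDX : Prop := ∀ (C U V : Type) [Fintype C] [AddCommGroup U] [Module ℝ U]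
  [AddCommGroup V] [Module ℝ V] (M : C → U →ₗ[ℝ] U →ₗ[ℝ] ℝ) (w : C → ℝ) (e : V →ₗ[ℝ] U) (X : V)
  (s : (C → ℝ) →ₗ[ℝ] (C → U)), Nonempty C → (∀ c, Sym (M c)) → (∀ c, 0 < w c) →
  (∀ c, 0 < M c (e X) (e X)) →
  (∀ c u, M c (e X) (e X) * M c u u ≤ (M c (e X) u) ^ 2) →
  (∀ ζ, ∑ c, w c * ζ c = 0 → ∀ v, ∑ c, w c * M c (e v) (s ζ c) = 0) →
  (∀ ζ, ∑ c, w c * ζ c = 0 → 0 ≤ ∑ c, w c * M c (s ζ c) (s ζ c)) →
  (∀ ζ, ∑ c, w c * ζ c = 0 → (∀ c, M c (e X) (s ζ c) = 0 ∧ M c (s ζ c) (s ζ c) = 0) → ζ = 0) →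
  ∀ v, (∑ c, w c * M c (e X) (e X)) * (∑ c, w c * M c (e v) (e v)) ≤
    (∑ c, w c * M c (e X) (e v)) ^ 2

namespace Ctx
variable {V : Type} [AddCommGroup V] [Module ℝ V] (S : Ctx V)

/-- the column forms on `V × ℝ`; at the levels `≤ -2` the direction `W` is in the radical -/
noncomputable def col (p q : ℤ) : (V × ℝ) →ₗ[ℝ] (V × ℝ) →ₗ[ℝ] ℝ :=
  if q ≤ p + 1 then S.full p q
  else (S.D p q).compl₁₂ (LinearMap.fst ℝ V ℝ) (LinearMap.fst ℝ V ℝ)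

/-- the direction `s_c` of the piece `(i, i')` -/
noncomputable def sv (ζ : ℤ → ℤ → ℝ) (xN xI nN nI : ℤ → ℝ) (i i' : ℤ) : V × ℝ :=
  (-(xc xN xI i i') • S.X + (nc nN nI i i') • S.Y, oc ζ xN xI nN nI i i')

/-- multiplication by `1 + ε x^σ` -/
noncomputable def sh (σ : ℤ) (ε : ℝ) : Ctx V where
  X := S.X
  Y := S.Y
  P := fun p => S.P p + ε • S.P (p - σ)
  Q := fun q => S.Q q + ε • S.Q (q - σ)
  D := fun p q => S.D p q + ε • S.D (p - σ) (q - σ)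
  G := fun q => S.G q + ε * S.G (q - σ)

/-- multiplication by `(1 + ε x)^N (1 + ε / x)^N` -/
noncomputable def pert (ε : ℝ) : ℕ → Ctx V
  | 0 => S
  | N + 1 => ((pert ε N).sh 1 ε).sh (-1) ε

/-- the form of `F (T S)` at the place `n` on `V` -/
noncomputable def prod (m : ℤ → ℤ → ℝ) (a b n : ℤ) : V →ₗ[ℝ] V →ₗ[ℝ] ℝ :=
  ∑ i ∈ Icc a b, ∑ i' ∈ Icc a b, m i i' • S.D (n - 2 - i) (n - i')

/-- a context whose pair is a scalar (`F = 0`, `L = R > 0` exactly on `[a, b]`) -/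
structure HS (a b : ℤ) (x : V →ₗ[ℝ] ℝ) : Prop extends S.Rel where
  ab : a ≤ b
  F0 : ∀ k, S.pr.F k = 0
  Lpos : ∀ k, a ≤ k → k ≤ b → 0 < S.pr.L k
  lo : ∀ k < a, S.pr.P k = 0
  hi : ∀ k ≥ b, S.pr.P k = S.pr.P b
  lev2 : ∀ q, S.D (q - 2) q = 0
  lev : ∀ p q, q - 1 ≤ p → OnePos (S.full p q)
  szl : ∀ p q, q - 1 ≤ p → S.pr.H (p + 1) (q - 1) = 0 → S.pr.H p (q - 2) = 0 →
    ∀ u v, S.full p q u v = S.pr.H (p + 2) q * x u.1 * x v.1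

/-- multiplication by `1 + δ U` (`U` = the piece `(0, 1)`) -/
noncomputable def zst (δ : ℝ) : Ctx V where
  X := S.X
  Y := S.Y
  P := fun p => S.P p + δ • S.P p
  Q := fun q => S.Q q + δ • S.Q (q - 1)
  D := fun p q => S.D p q + δ • S.D p (q - 1)
  G := fun q => S.G q + δ * S.pr.F (q - 1)

/-- strictness of the columns needed at the place `n` -/
structure Strict (n a b : ℤ) : Prop where
  pos : ∀ p q, n - b ≤ q → q ≤ n - a → q - 2 ≤ p → p ≤ n - 2 - a → 0 < S.pr.H (p + 2) q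
  rad2 : ∀ q, n - b ≤ q → q ≤ n - a → ∀ x y : ℝ,
    (∀ v, S.D (q - 2) q (x • S.X + y • S.Y) v = 0) → x = 0 ∧ y = 0
  rad : ∀ p q, n - b ≤ q → q ≤ n - a → q - 1 ≤ p → p ≤ n - 2 - a → ∀ x y w : ℝ,
    (∀ v, S.full p q (x • S.X + y • S.Y, w) v = 0) → x = 0 ∧ y = 0 ∧ w = 0

end Ctx

/-- PACKET STEP: the class is stable under multiplication by `1 + ε x^σ`, `σ = ± 1`.
`(S.sh σ ε).full p q = S.full p q + ε • S.full (p-σ) (q-σ)`; FAM for `σ = 1` with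
`B₀ = S.full p q`, `B₁ = S.full (p-1) (q-1)`, `α = 1`, `β = ε`, for `σ = -1` with
`B₀ = S.full (p+1) (q+1)`, `B₁ = S.full p q`, `α = ε`, `β = 1`; vectors `(X, 0)`, `(Y, 0)`; entries
`XX = H (p+2) q`, `XY = H (p+1) (q-1)`, `YY = H p (q-2)`.  Hypothesis 'one of the ends is zero':
if `H (p+1) (q-1) = 0` (`p + 1 ≥ q - 1`) then `F (q-1) = 0`, so `q - 1 < a` (then `Q (q-1) = 0`,
`P (p+1) = 0`, so `H (p-1) (q-3) = 0`) or `q - 1 ≥ b` (then `H (p+2) q = 0`).  Level `-2` in the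
same way with `S.D (q-2) q`. -/
def StmtSTEP : Prop := ∀ (V : Type) [AddCommGroup V] [Module ℝ V] (S : Ctx V) (a b σ : ℤ) (ε : ℝ),
  S.HH a b → σ = 1 ∨ σ = -1 → 0 < ε → (S.sh σ ε).HH (min a (a + σ)) (max b (b + σ))

/-- PACKET STEP, second part: radicals (the second half of FAM) -/
def StmtRAD : Prop := ∀ (V : Type) [AddCommGroup V] [Module ℝ V] (S : Ctx V) (a b σ : ℤ) (ε : ℝ),
  S.HH a b → σ = 1 ∨ σ = -1 → 0 < ε →
  (∀ q u, (∀ z, (S.sh σ ε).D (q - 2) q u z = 0) →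
    (∀ z, S.D (q - 2) q u z = 0) ∧ (∀ z, S.D (q - σ - 2) (q - σ) u z = 0)) ∧
  (∀ p q u, q - 1 ≤ p → (∀ z, (S.sh σ ε).full p q u z = 0) →
    (∀ z, S.full p q u z = 0) ∧ (∀ z, S.full (p - σ) (q - σ) u z = 0))

/-- PACKET PERT: the perturbed contexts.  By induction `(S.pert ε N).HH (a - N) (b + N)` and the
radical of its form at `(p, q)` is contained in the radicals of the forms of `S` at
`(p + j, q + j)`, `|j| ≤ N`.  Strict: `H (p+2) q ≥ F q > 0` if `a - N ≤ q < b + N`.  Radicals: let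
`s = (x X + y Y, w)` be in the radical of `S.full (q'+ℓ) q'` for all `q'` in a large interval:
`q' = a - ℓ - 2` and the vector `(X, 0)`: `x P a = 0` (`H (a) q' = P a > 0`, `H (a-1) _ = 0`), so
`x = 0`; `q' = b + 1` and `(Y, 0)`: `y R b = 0`, `R b = F (b-1) + L b > 0`, so `y = 0`; `q' = a` and
`(X, 0)`: `w H (a+ℓ+1) a = 0`, `H (a+ℓ+1) a ≥ F a > 0`, so `w = 0`.  Level `-2`: `q' = a`: `x F a = 0`;
`q' = b + 1`: `y F (b-1) = 0`. -/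
def StmtPERT : Prop := ∀ (V : Type) [AddCommGroup V] [Module ℝ V] (S : Ctx V) (a b : ℤ),
  S.HH a b → ∀ n a₁ b₁ : ℤ, ∃ N : ℕ, ∀ ε : ℝ, 0 < ε →
    (S.pert ε N).HH (a - N) (b + N) ∧ (S.pert ε N).Strict n a₁ b₁

/-- PACKET CONT -/
def StmtCONT : Prop := ∀ (V : Type) [AddCommGroup V] [Module ℝ V] (S : Ctx V) (N : ℕ)
  (p q : ℤ) (u v : V), Tendsto (fun ε : ℝ => (S.pert ε N).D p q u v) (𝓝[>] 0) (𝓝 (S.D p q u v))

/-- PACKET ID: the cross terms vanish.  With `p' = n - 2 - i`, `q' = n - i'` (natural formula; the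
instants have `ω = 0`) the term is `-ξ (P (p'+1) v - Q q' v) + ν (P p' v - Q (q'-1) v) +
ω (P p' v - Q q' v)`, `ω = ζ + ξ - ν`, so the `P` part is `-ξ P (p'+1) v + (ζ + ξ) P p' v`, which
sums to `∑_k P (n-2-k) v (-(∑_{i=k+1} m ξ) + ∑_{i=k} m (ζ + ξ)) = ∑_k P (n-2-k) v (-A (k+1) + A k +
∑_{i=k} m ζ) = 0`; the `Q` part is `-(ζ - ν) Q q' v - ν Q (q'-1) v`, same with `B`. -/
def StmtID : Prop := ∀ (V : Type) [AddCommGroup V] [Module ℝ V] (S : Ctx V) (T : Pr) (n a b : ℤ)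
  (m : ℤ → ℤ → ℝ) (opt : ℤ → Prop) (ζ : ℤ → ℤ → ℝ) (xN xI nN nI : ℤ → ℝ), S.Rel →
  T.Reg a b → Cpl T a b m → Par T a b m opt ζ xN xI nN nI → ∀ v : V,
  ∑ i ∈ Icc a b, ∑ i' ∈ Icc a b, m i i' *
    S.col (n - 2 - i) (n - i') (v, 0) (S.sv ζ xN xI nN nI i i') = 0

/-- PACKET ID, second part: `∑ m_c M_c(s_c, s_c)` is `Quad` (for `i = i'`, `m i i ≠ 0` one has
`ω = 0` by `Par.om`). -/
def StmtQC : Prop := ∀ (V : Type) [AddCommGroup V] [Module ℝ V] (S : Ctx V) (T : Pr) (n a b : ℤ)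
  (m : ℤ → ℤ → ℝ) (opt : ℤ → Prop) (ζ : ℤ → ℤ → ℝ) (xN xI nN nI : ℤ → ℝ), S.Rel →
  T.Reg a b → Cpl T a b m → Par T a b m opt ζ xN xI nN nI →
  ∑ i ∈ Icc a b, ∑ i' ∈ Icc a b, m i i' *
    S.col (n - 2 - i) (n - i') (S.sv ζ xN xI nN nI i i') (S.sv ζ xN xI nN nI i i') =
  Quad S.pr S.G n a b m ζ xN xI nN nI

/-- PACKET NOGAP: `H (p+2) q * H p q ≤ (H (p+1) q)^2` for `q ≤ p` gives
`H p q (L (p+2) - L (p+1)) ≤ L (p+1)^2`; so `L (p+1) = 0`, `P p > 0` imply `L (p+2) = 0` (take `q`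
very negative); `R` in the same way with `H p (q-2) * H p q ≤ (H p (q-1))^2`. -/
def StmtNOGAP : Prop := ∀ (T : Pr) (a b : ℤ), T.HH1 a b → T.NoGap

/-- PACKET CORE: the product theorem for strict columns.  `C = {(i, i') ∈ Icc a b ×ˢ Icc a b |
m i i' ≠ 0}`, `M_c = S.col`, `w = m`, `e v = (v, 0)`, `s` from PAR with `opt = optR S.pr n` (extend
`ζ : C → ℝ` by `0`); IDX with ID, QC, QUAD; the hypothesis on `ζ = 0`: OP3 and `Strict` give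
`ξ = ν = ω = 0` at all pieces, so `ζ = ω - ξ + ν = 0`.  Then OP1 (`M₁₂ X X > 0`). -/
def StmtCORE : Prop := ∀ (V : Type) [AddCommGroup V] [Module ℝ V] (S : Ctx V) (T : Pr)
  (a b a₂ b₂ n : ℤ) (m : ℤ → ℤ → ℝ), S.HH a₂ b₂ → T.HH1 a b → T.NoGap → Cpl T a b m →
  S.Strict n a b → OnePos (S.prod m a b n)

/-- PACKET LIM: MASTER THEOREM, from CORE, PERT, CONT, NOGAP (limit `ε → 0` for given `u`, `v` with
`0 < B u u`). -/
def StmtMASTER : Prop := ∀ (V : Type) [AddCommGroup V] [Module ℝ V] (S : Ctx V) (T : Pr)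
  (a b a₂ b₂ n : ℤ) (m : ℤ → ℤ → ℝ), S.HH a₂ b₂ → T.HH1 a b → Cpl T a b m →
  OnePos (S.prod m a b n)

/-- PACKET ZST: for a scalar context.  `F' k = δ L k`.  Level `-2`: `D' = δ • D (q-2) (q-1)`, the
restriction of `full (q-2) (q-1)`.  Levels `≥ -1`: `full' p q = full p q + δ • full p (q-1)`,
FAM0 with `y₀ = (Y, 0)`, `y₁ = (0, 1)`, `λ v = P p v - Q (q-1) v`; if `λ = 0` then
`H (p+1) (q-1) = 0 = H p (q-2)`, so `full p q = H (p+2) q x x` by `szl`; `L q = 0`, so `q > b` (then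
`H (p+2) q = 0`, `full p q = 0`) or `q < a`, `P (p+1) = 0` (then `full p (q-1) = H (p+2) (q-1) x x`
by `szl`): rank one. -/
def StmtZST : Prop := ∀ (V : Type) [AddCommGroup V] [Module ℝ V] (S : Ctx V) (a b : ℤ)
  (x : V →ₗ[ℝ] ℝ) (δ : ℝ), S.HS a b x → 0 < δ → (S.zst δ).HH a (b + 1)

/-- PACKET LIM0: from MASTER and ZST (limit `δ → 0`, `(S.zst δ).prod m a b n =
S.prod m a b n + δ • ∑ m i i' • S.D (n-2-i) (n-1-i')`). -/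
def StmtMASTER0 : Prop := ∀ (V : Type) [AddCommGroup V] [Module ℝ V] (S : Ctx V) (T : Pr)
  (a b a₂ b₂ n : ℤ) (x : V →ₗ[ℝ] ℝ) (m : ℤ → ℤ → ℝ), S.HS a₂ b₂ x → T.HH1 a b → Cpl T a b m →
  OnePos (S.prod m a b n)

end Pool.Agent.Helper99.LZ
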