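import Pool.Agent.Helper99.LZ.Bridge
import Pool.Agent.Helper12.LZ.SCB
import Pool.Agent.Helper13.LZ.BR1
import Pool.Agent.Helper16.LZ.BR3
import Pool.Agent.Helper3.LZ.OP
import Pool.Agent.Helper33.LZ.OPE
import Pool.Agent.Helper35.LZ.BR5
import Pool.Agent.Helper35.LZ.CP
import Pool.Agent.Helper39.LZ.CC
import Pool.Agent.Helper4.LZ.IDX
import Pool.Agent.Helper41.LZ.DEC
import Pool.Agent.Helper50.LZ.CPL
import Pool.Agent.Helper53.LZ.FIN
import Pool.Agent.Helper53.LZ.LIM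
import Pool.Agent.Helper54.LZ.R12
import Pool.Agent.Helper56.LZ.CONT
import Pool.Agent.Helper67.LZ.ID
import Pool.Agent.Helper67.LZ.KAP
import Pool.Agent.Helper69.LZ.QUAD
import Pool.Agent.Helper7.LZ.PAR
import Pool.Agent.Helper77.LZ.PERT
import Pool.Agent.Helper86.LZ.BR2
import Pool.Agent.Helper86.LZ.LIM0
import Pool.Agent.Helper92.LZ.ZST
import Pool.Agent.Helper97.LZ.STEP
import Pool.Agent.Helper98.LZ.CORE
import Pool.Agent.Helper33.C2.Pre

/-! Assembly of the product theorem (from R3, R4 and BRD). -/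

set_option autoImplicit false

namespace Pool.Agent.Helper99.LZ

theorem stmtCORE (h3 : StmtR3) (h4 : StmtR4) : StmtCORE :=
  Pool.Agent.Helper98.LZ.core Pool.Agent.Helper3.LZ.op Pool.Agent.Helper4.LZ.idx
    Pool.Agent.Helper7.LZ.par Pool.Agent.Helper67.LZ.idd Pool.Agent.Helper67.LZ.qc
    (Pool.Agent.Helper69.LZ.quad Pool.Agent.Helper41.LZ.dec
      (Pool.Agent.Helper54.LZ.r1 Pool.Agent.Helper67.LZ.kap)
      (Pool.Agent.Helper54.LZ.r2 Pool.Agent.Helper67.LZ.kap) h3 h4)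
    Pool.Agent.Helper50.LZ.cpl

theorem stmtMASTER (h3 : StmtR3) (h4 : StmtR4) : StmtMASTER :=
  Pool.Agent.Helper53.LZ.master (stmtCORE h3 h4)
    (Pool.Agent.Helper77.LZ.pert (Pool.Agent.Helper97.LZ.step Pool.Agent.Helper3.LZ.op)
      (Pool.Agent.Helper97.LZ.rad Pool.Agent.Helper3.LZ.op))
    Pool.Agent.Helper56.LZ.cont Pool.Agent.Helper56.LZ.nogap

theorem stmtMT1 (h3 : StmtR3) (h4 : StmtR4) (hb : StmtBRD) :
    Pool.Agent.Helper52.C2.GoalMT1' := by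
  have hm := stmtMASTER h3 h4
  have hz : StmtZST := Pool.Agent.Helper92.LZ.zst Pool.Agent.Helper3.LZ.op
  have hm0 := Pool.Agent.Helper86.LZ.master0 hm hz
  have hl : StmtBRL := Pool.Agent.Helper86.LZ.brl Pool.Agent.Helper33.LZ.ope
  have hr : StmtBRR := Pool.Agent.Helper13.LZ.brr
  exact Pool.Agent.Helper53.LZ.fin hm hm0 Pool.Agent.Helper50.LZ.cpl Pool.Agent.Helper33.LZ.ope
    Pool.Agent.Helper13.LZ.bre
    (Pool.Agent.Helper35.LZ.brf hr hl
      (Pool.Agent.Helper16.LZ.brg Pool.Agent.Helper3.LZ.op hr hl) hb)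
    Pool.Agent.Helper35.LZ.cp Pool.Agent.Helper39.LZ.cc
    (Pool.Agent.Helper12.LZ.scb hm hm0 hz Pool.Agent.Helper35.LZ.cp Pool.Agent.Helper50.LZ.cpl)
    Pool.Agent.Helper33.C2.goalCoefMul

end Pool.Agent.Helper99.LZ
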