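import Pool.Agent.Helper99.LZ.Defs

/-!
# Product theorem for HH1 : the form `Quad` (statements)
-/

set_option autoImplicit false

open Finset

namespace Pool.Agent.Helper99.LZ

/-- `A k = ∑_{i < k} m ζ` -/
noncomputable def Am (a b : ℤ) (m ζ : ℤ → ℤ → ℝ) (k : ℤ) : ℝ :=
  ∑ i ∈ Icc a b, ∑ i' ∈ Icc a b, if i < k then m i i' * ζ i i' else 0

/-- `B k = ∑_{i' ≤ k} m ζ` -/
noncomputable def Bm (a b : ℤ) (m ζ : ℤ → ℤ → ℝ) (k : ℤ) : ℝ :=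
  ∑ i ∈ Icc a b, ∑ i' ∈ Icc a b, if i' ≤ k then m i i' * ζ i i' else 0

/-- option R at the place `k` of `T₁` (otherwise option L) -/
def optR (T₂ : Pr) (n k : ℤ) : Prop := T₂.hp (n - k - 1) ≤ T₂.hp (n - k)

/-- parameters: `xN k`, `nN k` are the values of `ξ`, `ν` on the pieces of the block `k` that are
not instants, `xI k`, `nI k` the values on the instant `(k, k)`. -/
structure Par (T : Pr) (a b : ℤ) (m : ℤ → ℤ → ℝ) (opt : ℤ → Prop) (ζ : ℤ → ℤ → ℝ)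
    (xN xI nN nI : ℤ → ℝ) : Prop where
  tot : ∑ i ∈ Icc a b, ∑ i' ∈ Icc a b, m i i' * ζ i i' = 0
  blkA : ∀ k, m k k * xI k + (T.L k - m k k) * xN k = Am a b m ζ k
  blkB : ∀ k, m k k * nI k + (T.R k - m k k) * nN k = Bm a b m ζ k
  tieX : ∀ k, ¬ (T.h k < 0 ∧ ¬ opt k) → xI k = xN k
  tieN : ∀ k, ¬ (T.h k < 0 ∧ opt k) → nI k = nN k
  ort : ∀ k, T.h k < 0 → T.F k * xN k = T.F (k - 1) * nN k
  zX : ∀ k, T.L k = 0 → xN k = 0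
  zN : ∀ k, T.R k = 0 → nN k = 0
  om : ∀ k, T.h k < 0 → ζ k k = nI k - xI k

/-- `ξ` on the piece `(i, i')` -/
def xc (xN xI : ℤ → ℝ) (i i' : ℤ) : ℝ := if i = i' then xI i else xN i
/-- `ν` on the piece `(i, i')` -/
def nc (nN nI : ℤ → ℝ) (i i' : ℤ) : ℝ := if i = i' then nI i' else nN i'
/-- `ω = ζ + ξ - ν` -/
def oc (ζ : ℤ → ℤ → ℝ) (xN xI nN nI : ℤ → ℝ) (i i' : ℤ) : ℝ :=
  ζ i i' + xc xN xI i i' - nc nN nI i i'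

/-- the entry `(W, W)` with `G` at level `-1` -/
def gg (T : Pr) (G : ℤ → ℝ) (p q : ℤ) : ℝ := if q ≤ p then T.H p q else G q

/-- `Quad = ∑_c m_c M_c(s_c, s_c)`, `s_c = -ξ X + ν Y + ω W` -/
noncomputable def Quad (T : Pr) (G : ℤ → ℝ) (n a b : ℤ) (m ζ : ℤ → ℤ → ℝ)
    (xN xI nN nI : ℤ → ℝ) : ℝ :=
  ∑ i ∈ Icc a b, ∑ i' ∈ Icc a b, m i i' *
    T.W3 (n - 2 - i) (n - i') (gg T G (n - 2 - i) (n - i'))
      (-xc xN xI i i') (nc nN nI i i') (oc ζ xN xI nN nI i i')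
      (-xc xN xI i i') (nc nN nI i i') (oc ζ xN xI nN nI i i')

/-- the pair of a single piece `(j, j')` -/
def Pr.unit (j j' : ℤ) : Pr := ⟨fun p => if j ≤ p then 1 else 0, fun q => if j' ≤ q then 1 else 0⟩

/-- contribution of the row `(j, j')` of `T₂` to `Quad` -/
noncomputable def rowQ (n a b : ℤ) (m ζ : ℤ → ℤ → ℝ) (xN xI nN nI : ℤ → ℝ) (j j' : ℤ) : ℝ :=
  Quad (Pr.unit j j') (Pr.unit j j').hp n a b m ζ xN xI nN nI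

/-- PACKET CPL: the coupling exists.  `m i i = al i`, `m (i-1) i = F (i-1) - max (hp (i-1)) (hp i)`,
and for `i + 2 ≤ i'` the overlap `max 0 (min (P' i) (Q' i') - max (P' (i-1)) (Q' (i'-1)))` of the
intervals of the rest `L' k = max 0 (hp (k+1) - hp k)`, `R' k = max 0 (hp (k-1) - hp k)`,
`Q' k = ∑_{a ≤ i ≤ k} R' i`, `P' k = Q' (k+1) + hp (k+1)` (so `P' (i-1) ≥ Q' (i+1)`: the overlap is
`0` for `i' ≤ i + 1`).  Row sums: `∑_{i'}` overlap telescopes (clamp). -/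
def StmtCPL : Prop := ∀ (T : Pr) (a b : ℤ), T.Reg a b → ∃ m, Cpl T a b m

/-- PACKET PAR: parameters exist, and they are linear in `ζ`.  Take
`h k < 0`, not `opt k` : `nI = nN = B/R`, `xN = F(k-1) nN / F k`, `xI = (A - F(k-1) nN) / al k`;
`h k < 0`, `opt k` : `xI = xN = A/L`, `nN = F k xN / F(k-1)`, `nI = (B - F k xN) / al k`;
otherwise `xI = xN = A/L`, `nI = nN = B/R`  (`x / 0 = 0`).  `L k = 0 → A k = 0` by `NoGap`.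
`al k * ζ k k = B k - A k` if `h k < 0`, because no piece has `i < k < i'`. -/
def StmtPAR : Prop := ∀ (T : Pr) (a b : ℤ) (m : ℤ → ℤ → ℝ) (opt : ℤ → Prop), T.Reg a b → T.NoGap →
  Cpl T a b m → ∃ xN xI nN nI : (ℤ → ℤ → ℝ) →ₗ[ℝ] (ℤ → ℝ), ∀ ζ : ℤ → ℤ → ℝ,
    ∑ i ∈ Icc a b, ∑ i' ∈ Icc a b, m i i' * ζ i i' = 0 →
    Par T a b m opt ζ (xN ζ) (xI ζ) (nN ζ) (nI ζ)

/-- PACKET DEC: decomposition of `Quad` into rows. -/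
def StmtDEC : Prop := ∀ (T₂ : Pr) (a₂ b₂ : ℤ) (m₂ : ℤ → ℤ → ℝ) (G : ℤ → ℝ) (n a b : ℤ)
  (m ζ : ℤ → ℤ → ℝ) (xN xI nN nI : ℤ → ℝ), T₂.Reg a₂ b₂ → Cpl T₂ a₂ b₂ m₂ →
  (∀ i i', m i i' ≠ 0 → i ≤ i') →
  (∀ i, m i i ≠ 0 → oc ζ xN xI nN nI i i = 0) →
  Quad T₂ G n a b m ζ xN xI nN nI =
    ∑ j ∈ Icc a₂ b₂, ∑ j' ∈ Icc a₂ b₂, m₂ j j' * rowQ n a b m ζ xN xI nN nI j j' +
    ∑ i ∈ Icc a b, ∑ i' ∈ Icc a b, if i' = i + 1 then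
      m i i' * (oc ζ xN xI nN nI i i') ^ 2 * (G (n - i') - T₂.hp (n - i')) else 0

/-- PACKET KAP: the row form.  `I = n - 2 - j`, `I' = n - j'`. -/
def StmtKAP : Prop := ∀ (n a b : ℤ) (m ζ : ℤ → ℤ → ℝ) (xN xI nN nI : ℤ → ℝ) (j j' : ℤ), j ≤ j' →
  (∀ i i', m i i' ≠ 0 → i ≤ i') →
  (∀ i, m i i ≠ 0 → oc ζ xN xI nN nI i i = 0) →
  rowQ n a b m ζ xN xI nN nI j j' = ∑ i ∈ Icc a b, ∑ i' ∈ Icc a b, m i i' *
    ((if i = n - j then (xc xN xI i i') ^ 2 else 0)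
      - (if i = n - 1 - j then (xc xN xI i i') ^ 2 + 2 * xc xN xI i i' * ζ i i' else 0)
      + (if i' = n - j' - 1 then (nc nN nI i i') ^ 2 else 0)
      - (if i' = n - j' then (nc nN nI i i') ^ 2 - 2 * nc nN nI i i' * ζ i i' else 0)
      + ((if i ≤ n - 2 - j then 1 else 0) - (if i' ≤ n - j' then 1 else 0)) * (ζ i i') ^ 2
      + (if j = j' ∧ i' = i + 1 ∧ i' = n - j then (oc ζ xN xI nN nI i i') ^ 2 else 0))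

/-- hypotheses on `T₁` and its parameters -/
structure Hyp (T : Pr) (n a b : ℤ) (m : ℤ → ℤ → ℝ) (opt : ℤ → Prop) (ζ : ℤ → ℤ → ℝ)
    (xN xI nN nI : ℤ → ℝ) : Prop where
  hh : T.HH1 a b
  cpl : Cpl T a b m
  par : Par T a b m opt ζ xN xI nN nI

/-- PACKET R1: natural rows of length `≥ 2`.  With `k = n - 1 - j`, `k' = n - j'` (`k' ≤ k - 1`),
`ξ = xN k`, `ν = nN k'`:
`rowQ = ∑_{i = k+1} m (ξ_c - ξ)² + ∑_{i' = k'-1} m (ν_c - ν)² + (L k - L (k+1)) ξ² +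
(R k' - R (k'-1)) ν² + ∑_{i < k, i' > k'} m ζ²`, `∑_{i < k, i' > k'} m ζ = L k ξ - R k' ν`,
`∑_{i < k, i' > k'} m = H (k-1) k'`; Cauchy-Schwarz and `OP3 (k-1) k' (H (k-1) k')`. -/
def StmtR1 : Prop := ∀ (T : Pr) (n a b : ℤ) (m : ℤ → ℤ → ℝ) (opt : ℤ → Prop) (ζ : ℤ → ℤ → ℝ)
  (xN xI nN nI : ℤ → ℝ), Hyp T n a b m opt ζ xN xI nN nI → ∀ j j' : ℤ, j + 2 ≤ j' →
  xI (n - 1 - j) = xN (n - 1 - j) → nI (n - j') = nN (n - j') →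
  0 ≤ rowQ n a b m ζ xN xI nN nI j j'

/-- PACKET R2: rows of length one at a place without instants (same computation, `k' = k`). -/
def StmtR2 : Prop := ∀ (T : Pr) (n a b : ℤ) (m : ℤ → ℤ → ℝ) (opt : ℤ → Prop) (ζ : ℤ → ℤ → ℝ)
  (xN xI nN nI : ℤ → ℝ), Hyp T n a b m opt ζ xN xI nN nI → ∀ j : ℤ, 0 ≤ T.h (n - 1 - j) →
  0 ≤ rowQ n a b m ζ xN xI nN nI j (j + 1)

/-- PACKET R3: rows of length one at a place with an instant: with `k = n - 1 - j`, `α = al k`,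
`rowQ = -N(k+1) ξ² + 2 N(k) ξ ν - N(k-1) ν² - 2 α (xI k - ξ)(nI k - ν) +
∑_{i = k+1} m (ξ_c - ξ)² + ∑_{i' = k-1} m (ν_c - ν)²` with `ξ = xN k`, `ν = nN k`,
`N k = H k (k-1)`, `F k ξ = F (k-1) ν`; the product vanishes by `tieX`, `tieN`, and the first three
terms are `≥ 0` by `OP3 (k-1) k 0`. -/
def StmtR3 : Prop := ∀ (T : Pr) (n a b : ℤ) (m : ℤ → ℤ → ℝ) (opt : ℤ → Prop) (ζ : ℤ → ℤ → ℝ)
  (xN xI nN nI : ℤ → ℝ), Hyp T n a b m opt ζ xN xI nN nI → ∀ j : ℤ, T.h (n - 1 - j) < 0 →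
  0 ≤ rowQ n a b m ζ xN xI nN nI j (j + 1)

/-- PACKET R4: instants of `T₂`.  With `i = n - j`, `ξ = xN (i-1)`, `ν = nN i`,
`D = F i - 2 F (i-1) + F (i-2)`, `L⁺ = F - hp` (mass of the block without the instant),
`R⁺ k = F (k-1) - hp k`:
if `R⁺ i ≤ L⁺ (i-1)` (all of `R⁺ i` is the piece `(i-1, i)`):
`rowQ = ∑_{i_c ≤ i-2, i'_c > i} m ζ² + L⁺ i (xN i - ξ)² + R⁺ (i-1) (nN (i-1) - ξ)² - D ξ²`, and
`∑_{i_c ≤ i-2, i'_c > i} m ζ = L⁺ (i-1) ξ - R⁺ (i-1) nN (i-1)`, mass `hp (i-1)`;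
if `L⁺ (i-1) ≤ R⁺ i`:
`rowQ = ∑_{i_c ≤ i-2, i'_c > i} m ζ² + L⁺ i (xN i - ν)² + R⁺ (i-1) (nN (i-1) - ν)² - D ν²`, and
`∑_{i_c ≤ i-2, i'_c > i} m ζ = L⁺ i xN i - R⁺ i ν`, mass `hp i`. -/
def StmtR4 : Prop := ∀ (T : Pr) (n a b : ℤ) (m : ℤ → ℤ → ℝ) (opt : ℤ → Prop) (ζ : ℤ → ℤ → ℝ)
  (xN xI nN nI : ℤ → ℝ), Hyp T n a b m opt ζ xN xI nN nI → ∀ j : ℤ,
  0 ≤ rowQ n a b m ζ xN xI nN nI j j

/-- `Quad ≥ 0` (from DEC, R1 - R4 and the maximality of the couplings) -/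
def StmtQUAD : Prop := ∀ (T₁ T₂ : Pr) (n a b a₂ b₂ : ℤ) (m m₂ : ℤ → ℤ → ℝ) (G : ℤ → ℝ)
  (ζ : ℤ → ℤ → ℝ) (xN xI nN nI : ℤ → ℝ), T₂.Reg a₂ b₂ → Cpl T₂ a₂ b₂ m₂ →
  (∀ q, T₂.hp q ≤ G q) →
  Hyp T₁ n a b m (optR T₂ n) ζ xN xI nN nI → 0 ≤ Quad T₂ G n a b m ζ xN xI nN nI

end Pool.Agent.Helper99.LZ
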